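import Mathlib
import Pool.Agent.Helper21.SR.St
import Pool.Agent.Helper62.SP.E

/-! SR module EN (MP_cc0731_co): the energy lemma, without hypotheses. -/

set_option autoImplicit false

namespace Pool.Agent.Helper62.SR

open Finset
open scoped Pointwise
open Pool.Agent.Helper21.SR

theorem hEn0 : StEn := by
  intro X S Y Γ m hX hS hY hΓ
  rcases Nat.eq_zero_or_pos m with hm | hm
  · subst hm
    have h0 : Γ = ∅ := by
      apply Finset.eq_empty_of_forall_notMem
      intro p hp
      have h1 := (hΓ p hp).1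
      rw [Finset.card_eq_zero.1 (Nat.le_zero.1 hX)] at h1
      exact Finset.notMem_empty _ h1
    rw [h0]
    simp
  · have h := Pool.Agent.Helper62.SP.energy m hm X S Y Γ hX hS (Or.inl hY) hΓ
    have hm1 : (1 : ℝ) ≤ m := by exact_mod_cast hm
    have h1 : Real.log m ≤ (Nat.log 2 m : ℝ) + 1 := by
      have h2 : m < 2 ^ (Nat.log 2 m + 1) := Nat.lt_pow_succ_log_self (by norm_num) m
      have h3 : (m : ℝ) ≤ 2 ^ (Nat.log 2 m + 1) := by exact_mod_cast h2.le
      have h4 := Real.log_le_log (by linarith) h3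
      rw [Real.log_pow] at h4
      have h5 := Real.log_two_lt_d9
      have h6 : (0 : ℝ) ≤ (Nat.log 2 m + 1 : ℕ) := Nat.cast_nonneg _
      push_cast at h4 h6
      nlinarith
    have h7 : (Γ.card : ℝ) ^ 4 ≤ 65536 * (m : ℝ) ^ 6 * ((Nat.log 2 m : ℝ) + 2) *
        ((Y * Y).card : ℝ) := by
      refine h.trans ?_
      have h8 : (0 : ℝ) ≤ Nat.log 2 m := Nat.cast_nonneg _
      have h9 : 1024 * (1 + Real.log m) ≤ 65536 * ((Nat.log 2 m : ℝ) + 2) := by linarith
      calc 1024 * (m : ℝ) ^ 6 * (1 + Real.log m) * ((Y * Y).card : ℝ)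
          = (m : ℝ) ^ 6 * (1024 * (1 + Real.log m)) * ((Y * Y).card : ℝ) := by ring
        _ ≤ (m : ℝ) ^ 6 * (65536 * ((Nat.log 2 m : ℝ) + 2)) * ((Y * Y).card : ℝ) := by gcongr
        _ = _ := by ring
    exact_mod_cast h7

end Pool.Agent.Helper62.SR
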